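import Mathlib

/-!
FV2, piece D4, core: the integral identity and the two signs.
-/

set_option autoImplicit false

open Complex MeasureTheory Metric Set Filter Topology ComplexConjugate

namespace Pool.Agent.E8helper80.FV

/-- the common situation -/
structure Sit (x xd : ℝ → ℂ) (th v : ℝ → ℝ) : Prop where
  hx : ∀ t, HasDerivAt x (xd t) t
  cxd : Continuous xd
  vpos : ∀ t, 0 < v t
  vc : Continuous v
  tan : ∀ t, xd t = (v t : ℂ) * exp ((th t : ℂ) * I)
  cth : Continuous th
  per : x (2 * Real.pi) = x 0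

variable {x xd : ℝ → ℂ} {th v : ℝ → ℝ}

theorem Sit.cx (h : Sit x xd th v) : Continuous x :=
  continuous_iff_continuousAt.2 fun s => (h.hx s).continuousAt

theorem Sit.xd_ne (h : Sit x xd th v) (t : ℝ) : xd t ≠ 0 := by
  rw [h.tan]
  exact mul_ne_zero (by exact_mod_cast (h.vpos t).ne') (exp_ne_zero _)

/-- the function `f_b` -/
noncomputable def ff (x : ℝ → ℂ) (th : ℝ → ℝ) (b : ℂ) (t : ℝ) : ℝ :=
  (exp (-((th t : ℂ) * I)) * (x t - b)).re

theorem conj_exp_I (θ : ℝ) : conj (exp ((θ : ℂ) * I)) = exp (-((θ : ℂ) * I)) := by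
  rw [← exp_conj, map_mul, conj_ofReal, conj_I, mul_neg]

/-- `v f_b = (conj x' (x - b) + x' conj (x - b)) / 2` -/
theorem Sit.vf (h : Sit x xd th v) (b : ℂ) (t : ℝ) :
    ((v t * ff x th b t : ℝ) : ℂ) =
      (conj (xd t) * (x t - b) + xd t * conj (x t - b)) / 2 := by
  have h1 : conj (xd t) * (x t - b) = (v t : ℂ) * (exp (-((th t : ℂ) * I)) * (x t - b)) := by
    rw [h.tan, map_mul, conj_ofReal, conj_exp_I, mul_assoc]
  have h2 : xd t * conj (x t - b) = conj (conj (xd t) * (x t - b)) := by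
    rw [map_mul, conj_conj]
  rw [h2, h1, Complex.add_conj]
  push_cast
  rw [re_ofReal_mul, ff]
  push_cast
  ring

theorem Sit.cff (h : Sit x xd th v) (b : ℂ) : Continuous (ff x th b) := by
  have h1 := h.cx
  have h2 := h.cth
  unfold ff
  fun_prop

/-- `∫ v f_b = 0` -/
theorem Sit.int1 (h : Sit x xd th v) (b : ℂ) :
    ∫ t in (0 : ℝ)..(2 * Real.pi), ((v t * ff x th b t : ℝ) : ℂ) = 0 := by
  have hd : ∀ t, HasDerivAt (fun t => (x t - b) * conj (x t - b) / 2)
      (((v t * ff x th b t : ℝ) : ℂ)) t := by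
    intro t
    have e1 : HasDerivAt (fun t => x t - b) (xd t) t := (h.hx t).sub_const b
    have e2 : HasDerivAt (fun t => conj (x t - b)) (conj (xd t)) t := e1.star
    have e3 := (e1.mul e2).div_const 2
    rw [h.vf]
    refine e3.congr_deriv ?_
    ring
  have hc : Continuous fun t => ((v t * ff x th b t : ℝ) : ℂ) :=
    continuous_ofReal.comp (h.vc.mul (h.cff b))
  rw [intervalIntegral.integral_eq_sub_of_hasDerivAt (fun t _ => hd t) (hc.intervalIntegrable _ _),
    h.per, sub_self]

/-- `∫ v f_b e^{-2 i th} = 0` -/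
theorem Sit.int2 (h : Sit x xd th v) (b : ℂ)
    (J1 : ∫ t in (0 : ℝ)..(2 * Real.pi), conj (xd t) ^ 2 / xd t = 0)
    (J2 : ∫ t in (0 : ℝ)..(2 * Real.pi), x t * (conj (xd t) ^ 2 / xd t) = 0) :
    ∫ t in (0 : ℝ)..(2 * Real.pi), ((v t * ff x th b t : ℝ) : ℂ) * exp (-(2 * (th t : ℂ) * I)) = 0 := by
  have hcx := h.cx
  have hcd := h.cxd
  have hne := h.xd_ne
  have hk : ∀ t, exp (-(2 * (th t : ℂ) * I)) = conj (xd t) / xd t := by
    intro t
    have hv : (v t : ℂ) ≠ 0 := by exact_mod_cast (h.vpos t).ne'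
    rw [h.tan, map_mul, conj_ofReal, conj_exp_I, mul_div_mul_left _ _ hv, ← exp_sub]
    congr 1
    ring
  have c1 : Continuous fun t => conj (xd t) ^ 2 / xd t :=
    ((continuous_conj.comp hcd).pow 2).div hcd hne
  have c2 : Continuous fun t => x t * (conj (xd t) ^ 2 / xd t) := hcx.mul c1
  have hconj : Continuous fun t => conj (x t - b) := continuous_conj.comp (hcx.sub continuous_const)
  have c3 : Continuous fun t => conj (xd t) * conj (x t - b) :=
    (continuous_conj.comp hcd).mul hconj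
  have hd : ∀ t, HasDerivAt (fun t => conj (x t - b) ^ 2 / 2)
      (conj (xd t) * conj (x t - b)) t := by
    intro t
    have e1 : HasDerivAt (fun t => x t - b) (xd t) t := (h.hx t).sub_const b
    have e2 : HasDerivAt (fun t => conj (x t - b)) (conj (xd t)) t := e1.star
    have e3 := (e2.pow 2).div_const 2
    refine e3.congr_deriv ?_
    push_cast
    ring
  have h3 : ∫ t in (0 : ℝ)..(2 * Real.pi), conj (xd t) * conj (x t - b) = 0 := by
    rw [intervalIntegral.integral_eq_sub_of_hasDerivAt (fun t _ => hd t)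
      (c3.intervalIntegrable _ _), h.per, sub_self]
  have h4 : ∀ t, ((v t * ff x th b t : ℝ) : ℂ) * exp (-(2 * (th t : ℂ) * I)) =
      (1 / 2 : ℂ) * (x t * (conj (xd t) ^ 2 / xd t) - b * (conj (xd t) ^ 2 / xd t) +
        conj (xd t) * conj (x t - b)) := by
    intro t
    rw [h.vf, hk]
    have := hne t
    field_simp
  simp only [h4]
  have c5 : Continuous fun t => b * (conj (xd t) ^ 2 / xd t) := continuous_const.mul c1
  have c4 : Continuous fun t => x t * (conj (xd t) ^ 2 / xd t) - b * (conj (xd t) ^ 2 / xd t) :=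
    c2.sub c5
  rw [intervalIntegral.integral_const_mul, intervalIntegral.integral_add
    (c4.intervalIntegrable _ _) (c3.intervalIntegrable _ _),
    intervalIntegral.integral_sub (c2.intervalIntegrable _ _)
      (c5.intervalIntegrable _ _), intervalIntegral.integral_const_mul,
    J1, J2, h3]
  ring

/-- the real identity -/
theorem Sit.int3 (h : Sit x xd th v) (b : ℂ) (α β : ℝ)
    (J1 : ∫ t in (0 : ℝ)..(2 * Real.pi), conj (xd t) ^ 2 / xd t = 0)
    (J2 : ∫ t in (0 : ℝ)..(2 * Real.pi), x t * (conj (xd t) ^ 2 / xd t) = 0) :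
    ∫ t in (0 : ℝ)..(2 * Real.pi),
      v t * (Real.sin (th t - α) * Real.sin (th t - β) * ff x th b t) = 0 := by
  have i1 := h.int1 b
  have i2 := h.int2 b J1 J2
  have cth := h.cth
  have hc1 : Continuous fun t => ((v t * ff x th b t : ℝ) : ℂ) :=
    continuous_ofReal.comp (h.vc.mul (h.cff b))
  have hc2 : Continuous fun t => ((v t * ff x th b t : ℝ) : ℂ) * exp (-(2 * (th t : ℂ) * I)) :=
    hc1.mul (by fun_prop)
  obtain ⟨F, hF⟩ : ∃ F : ℝ → ℂ, F = fun t => (1 / 2 : ℂ) * ((Real.cos (α - β) : ℂ) *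
    ((v t * ff x th b t : ℝ) : ℂ) - exp (((α + β : ℝ) : ℂ) * I) *
      (((v t * ff x th b t : ℝ) : ℂ) * exp (-(2 * (th t : ℂ) * I)))) := ⟨_, rfl⟩
  have hFc : Continuous F := by
    rw [hF]
    exact continuous_const.mul ((continuous_const.mul hc1).sub (continuous_const.mul hc2))
  have hc3 : Continuous fun t => (Real.cos (α - β) : ℂ) * ((v t * ff x th b t : ℝ) : ℂ) :=
    continuous_const.mul hc1
  have hc4 : Continuous fun t => exp (((α + β : ℝ) : ℂ) * I) *
      (((v t * ff x th b t : ℝ) : ℂ) * exp (-(2 * (th t : ℂ) * I))) := continuous_const.mul hc2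
  have hF0 : ∫ t in (0 : ℝ)..(2 * Real.pi), F t = 0 := by
    rw [hF, intervalIntegral.integral_const_mul, intervalIntegral.integral_sub
      (hc3.intervalIntegrable _ _)
      (hc4.intervalIntegrable _ _), intervalIntegral.integral_const_mul,
      intervalIntegral.integral_const_mul, i1, i2]
    ring
  have hre : ∀ t, (F t).re = v t * (Real.sin (th t - α) * Real.sin (th t - β) * ff x th b t) := by
    intro t
    have e1 : exp (((α + β : ℝ) : ℂ) * I) * (((v t * ff x th b t : ℝ) : ℂ) *
        exp (-(2 * (th t : ℂ) * I))) = ((v t * ff x th b t : ℝ) : ℂ) *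
          exp (((α + β - 2 * th t : ℝ) : ℂ) * I) := by
      rw [show (((α + β - 2 * th t : ℝ) : ℂ) * I) = ((α + β : ℝ) : ℂ) * I + -(2 * (th t : ℂ) * I) by
        push_cast; ring, exp_add]
      ring
    have e2 : (F t) = ((1 / 2 : ℝ) : ℂ) * (((Real.cos (α - β) * (v t * ff x th b t) : ℝ) : ℂ) -
        ((v t * ff x th b t : ℝ) : ℂ) * exp (((α + β - 2 * th t : ℝ) : ℂ) * I)) := by
      rw [hF]
      simp only [e1]
      push_cast
      ring
    rw [e2, re_ofReal_mul, sub_re, ofReal_re, re_ofReal_mul, exp_ofReal_mul_I_re]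
    have e3 : Real.cos (α - β) - Real.cos (α + β - 2 * th t) =
        2 * (Real.sin (th t - α) * Real.sin (th t - β)) := by
      rw [Real.cos_sub_cos]
      rw [show (α - β + (α + β - 2 * th t)) / 2 = -(th t - α) by ring,
        show (α - β - (α + β - 2 * th t)) / 2 = th t - β by ring, Real.sin_neg]
      ring
    linear_combination (v t * ff x th b t) / 2 * e3
  have h5 := reCLM.intervalIntegral_comp_comm (hFc.intervalIntegrable (μ := volume) 0 (2 * Real.pi))
  rw [hF0, map_zero] at h5
  exact (intervalIntegral.integral_congr fun t _ => (hre t).symm).trans h5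

/-- **D4, core** -/
theorem Sit.signs (h : Sit x xd th v) (mono : StrictMono th) (b : ℂ) (α β : ℝ)
    (J1 : ∫ t in (0 : ℝ)..(2 * Real.pi), conj (xd t) ^ 2 / xd t = 0)
    (J2 : ∫ t in (0 : ℝ)..(2 * Real.pi), x t * (conj (xd t) ^ 2 / xd t) = 0)
    (hne : ∀ c d : ℝ, c < d → ∃ s ∈ Ioo c d, ff x th b s ≠ 0) :
    (∃ p, 0 < Real.sin (th p - α) * Real.sin (th p - β) * ff x th b p) ∧
    ∃ q, Real.sin (th q - α) * Real.sin (th q - β) * ff x th b q < 0 := by
  have hpi := Real.pi_pos
  have cth := h.cth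
  have hcf := h.cff b
  have hvc := h.vc
  obtain ⟨S, hS⟩ : ∃ S : ℝ → ℝ, S = fun t => Real.sin (th t - α) * Real.sin (th t - β) := ⟨_, rfl⟩
  have hSc : Continuous S := by rw [hS]; fun_prop
  -- a point of `(0, 2 π)` where `S` does not vanish
  have h1 : ∃ t0 ∈ Ioo 0 (2 * Real.pi), S t0 ≠ 0 := by
    by_contra hcon
    push Not at hcon
    have hsub : Ioo 0 (2 * Real.pi) ⊆ th ⁻¹' (range (fun k : ℤ => (k : ℝ) * Real.pi + α) ∪
        range (fun k : ℤ => (k : ℝ) * Real.pi + β)) := by
      intro t ht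
      have h2 := hcon t ht
      rw [hS] at h2
      rcases mul_eq_zero.1 h2 with h3 | h3
      · obtain ⟨k, hk⟩ := Real.sin_eq_zero_iff.1 h3
        exact Or.inl ⟨k, by linarith⟩
      · obtain ⟨k, hk⟩ := Real.sin_eq_zero_iff.1 h3
        exact Or.inr ⟨k, by linarith⟩
    have hcount : (th ⁻¹' (range (fun k : ℤ => (k : ℝ) * Real.pi + α) ∪
        range (fun k : ℤ => (k : ℝ) * Real.pi + β))).Countable :=
      ((countable_range _).union (countable_range _)).preimage mono.injective
    have h3 := (hcount.mono hsub).measure_zero volume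
    rw [Real.volume_Ioo, ENNReal.ofReal_eq_zero] at h3
    linarith
  obtain ⟨t0, ht0, hS0⟩ := h1
  -- a point where the product does not vanish
  have h2 : ∃ s ∈ Ioo 0 (2 * Real.pi), S s * ff x th b s ≠ 0 := by
    have hopen : IsOpen ({t | S t ≠ 0} ∩ Ioo 0 (2 * Real.pi)) :=
      (isOpen_ne_fun hSc continuous_const).inter isOpen_Ioo
    obtain ⟨ε, hε, hball⟩ := Metric.isOpen_iff.1 hopen t0 ⟨hS0, ht0⟩
    obtain ⟨s, hs, hs0⟩ := hne (t0 - ε) (t0 + ε) (by linarith)
    have hsb : s ∈ ball t0 ε := by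
      rw [Real.ball_eq_Ioo]
      exact hs
    exact ⟨s, (hball hsb).2, mul_ne_zero (hball hsb).1 hs0⟩
  obtain ⟨s, hs, hs0⟩ := h2
  have i3 := h.int3 b α β J1 J2
  have hG : Continuous fun t => v t * (S t * ff x th b t) := hvc.mul (hSc.mul hcf)
  have i4 : ∫ t in (0 : ℝ)..(2 * Real.pi), v t * (S t * ff x th b t) = 0 := by
    rw [hS]
    exact i3
  constructor
  · by_contra hcon
    push Not at hcon
    have h5 : 0 < ∫ t in (0 : ℝ)..(2 * Real.pi), -(v t * (S t * ff x th b t)) := by
      apply intervalIntegral.integral_pos (by positivity) hG.neg.continuousOn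
      · intro t _
        have := hcon t
        have h6 : S t * ff x th b t ≤ 0 := by rw [hS]; exact this
        show 0 ≤ -(v t * (S t * ff x th b t))
        rw [← mul_neg]
        exact mul_nonneg (h.vpos t).le (neg_nonneg.2 h6)
      · refine ⟨s, Ioo_subset_Icc_self hs, ?_⟩
        have h6 : S s * ff x th b s ≤ 0 := by
          have := hcon s
          rw [hS]; exact this
        have h7 : S s * ff x th b s < 0 := lt_of_le_of_ne h6 hs0
        show 0 < -(v s * (S s * ff x th b s))
        rw [← mul_neg]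
        exact mul_pos (h.vpos s) (neg_pos.2 h7)
    rw [intervalIntegral.integral_neg, i4, neg_zero] at h5
    exact lt_irrefl _ h5
  · by_contra hcon
    push Not at hcon
    have h5 : 0 < ∫ t in (0 : ℝ)..(2 * Real.pi), v t * (S t * ff x th b t) := by
      apply intervalIntegral.integral_pos (by positivity) hG.continuousOn
      · intro t _
        have := hcon t
        have h6 : 0 ≤ S t * ff x th b t := by rw [hS]; exact this
        exact mul_nonneg (h.vpos t).le h6
      · refine ⟨s, Ioo_subset_Icc_self hs, ?_⟩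
        have h6 : 0 ≤ S s * ff x th b s := by
          have := hcon s
          rw [hS]; exact this
        have h7 : 0 < S s * ff x th b s := lt_of_le_of_ne h6 (Ne.symm hs0)
        exact mul_pos (h.vpos s) h7
    rw [i4] at h5
    exact lt_irrefl _ h5

end Pool.Agent.E8helper80.FV
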