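import Pool.Agent.E8helper4.FV.Stm2
import Pool.Agent.E8helper80.FV.D4core
import Pool.Agent.Y769.SC.Nz

/-!
FV2, piece D4: the integral identity from `J1 = J2 = 0`, and the two signs.
-/

set_option autoImplicit false

open Complex MeasureTheory Metric Set Filter Topology ComplexConjugate
open Pool.Agent.E8helper4.FV

namespace Pool.Agent.E8helper80.FV

theorem mem_b {r : ℝ} (hr : 1 < r) (t : ℝ) : exp ((t : ℂ) * I) ∈ ball (0 : ℂ) r := by
  rw [mem_ball_zero_iff, Complex.norm_exp_ofReal_mul_I]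
  exact hr

theorem hexp (t : ℝ) : HasDerivAt (fun t : ℝ => exp ((t : ℂ) * I)) (I * exp ((t : ℂ) * I)) t := by
  have e1 : HasDerivAt (fun t : ℝ => (t : ℂ) * I) (1 * I) t :=
    (Complex.ofRealCLM.hasDerivAt (x := t)).mul_const I
  rw [one_mul] at e1
  rw [mul_comm]
  exact e1.cexp

theorem hxx {φ : ℂ → ℂ} {r : ℝ} (hr : 1 < r) (hφ : DifferentiableOn ℂ φ (ball 0 r)) (t : ℝ) :
    HasDerivAt (xx φ) (xd φ t) t := by
  have h1 : HasDerivAt φ (deriv φ (exp ((t : ℂ) * I))) (exp ((t : ℂ) * I)) :=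
    (hφ.differentiableAt (isOpen_ball.mem_nhds (mem_b hr t))).hasDerivAt
  have h2 := h1.comp_of_eq t (hexp t) rfl
  rw [mul_comm] at h2
  exact h2

theorem cont_deriv {φ : ℂ → ℂ} {r : ℝ} (hr : 1 < r) (hφ : DifferentiableOn ℂ φ (ball 0 r)) :
    Continuous fun t : ℝ => deriv φ (exp ((t : ℂ) * I)) := by
  have h1 : ContinuousOn (deriv φ) (ball 0 r) := (hφ.deriv isOpen_ball).continuousOn
  have h2 : Continuous fun t : ℝ => exp ((t : ℂ) * I) := by fun_prop
  exact h1.comp_continuous h2 fun t => mem_b hr t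

theorem cont_xd {φ : ℂ → ℂ} {r : ℝ} (hr : 1 < r) (hφ : DifferentiableOn ℂ φ (ball 0 r)) :
    Continuous (xd φ) := by
  have h1 := cont_deriv hr hφ
  unfold xd
  exact (continuous_const.mul (by fun_prop)).mul h1

theorem per_xx (φ : ℂ → ℂ) (t : ℝ) : xx φ (t + 2 * Real.pi) = xx φ t := by
  unfold xx
  congr 1
  push_cast
  rw [add_mul, exp_add, exp_two_pi_mul_I, mul_one]

theorem sit {φ : ℂ → ℂ} {r : ℝ} {th : ℝ → ℝ} (hr : 1 < r) (hφ : DifferentiableOn ℂ φ (ball 0 r))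
    (hinj : InjOn φ (ball 0 r)) (hA : Ang2 φ th) :
    Sit (xx φ) (xd φ) th (fun t => ‖deriv φ (exp ((t : ℂ) * I))‖) where
  hx := hxx hr hφ
  cxd := cont_xd hr hφ
  vpos := fun t => norm_pos_iff.2 (Pool.Agent.Y769.SC.nz φ r hφ hinj _ (mem_b hr t))
  vc := (cont_deriv hr hφ).norm
  tan := hA.tan
  cth := continuous_iff_continuousAt.2 fun s => (hA.dth s).continuousAt
  per := by
    have := per_xx φ 0
    rwa [zero_add] at this

theorem d4 : D4 := by
  intro φ r th b t1 t2 hr hφ hinj hA j1 j2 _ hne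
  have h := sit hr hφ hinj hA
  obtain ⟨⟨p, hp⟩, q, hq⟩ := h.signs hA.mth b (th t1) (th t2) j1 j2 hne
  exact ⟨p, q, hp, hq⟩

end Pool.Agent.E8helper80.FV
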