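import Mathlib

/-!
Leibniz' rule with a variable upper limit, for continuous integrands.
-/

set_option autoImplicit false

open MeasureTheory Metric Set Filter Topology

namespace Pool.Agent.E8helper80.FV

theorem leib {G G' : ℝ → ℝ → ℂ} (hG : Continuous (Function.uncurry G))
    (hG' : Continuous (Function.uncurry G'))
    (hd : ∀ t s, HasDerivAt (fun t => G t s) (G' t s) t) (t : ℝ) :
    HasDerivAt (fun t => ∫ s in (0 : ℝ)..t, G t s) (G t t + ∫ s in (0 : ℝ)..t, G' t s) t := by
  have c1 : ∀ t, Continuous (G t) := fun t =>
    hG.comp (continuous_const.prodMk continuous_id : Continuous fun s : ℝ => (t, s))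
  have c2 : ∀ t, Continuous (G' t) := fun t =>
    hG'.comp (continuous_const.prodMk continuous_id : Continuous fun s : ℝ => (t, s))
  -- fixed limits
  have h1 : HasDerivAt (fun t' => ∫ s in (0 : ℝ)..t, G t' s) (∫ s in (0 : ℝ)..t, G' t s) t := by
    have hcomp : IsCompact (closedBall t 1 ×ˢ uIcc (0 : ℝ) t) :=
      (isCompact_closedBall t 1).prod isCompact_uIcc
    obtain ⟨C, hC⟩ := hcomp.exists_bound_of_continuousOn hG'.continuousOn
    have h := intervalIntegral.hasDerivAt_integral_of_dominated_loc_of_deriv_le
      (μ := volume) (a := 0) (b := t) (F := G) (F' := G') (x₀ := t) (s := closedBall t 1)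
      (bound := fun _ => C) (closedBall_mem_nhds t one_pos)
      (Eventually.of_forall fun t' => (c1 t').aestronglyMeasurable)
      ((c1 t).intervalIntegrable _ _) (c2 t).aestronglyMeasurable
      (Eventually.of_forall fun s hs t' ht' => hC (t', s) ⟨ht', uIoc_subset_uIcc hs⟩)
      intervalIntegrable_const
      (Eventually.of_forall fun s _ t' _ => hd t' s)
    exact h.2
  -- the moving part
  have h2 : HasDerivAt (fun t' => ∫ s in t..t', G t' s) (G t t) t := by
    rw [hasDerivAt_iff_isLittleO]
    rw [Asymptotics.isLittleO_iff]
    intro c hc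
    have hcont : ContinuousAt (Function.uncurry G) (t, t) := hG.continuousAt
    obtain ⟨δ, hδ, hδ2⟩ := Metric.continuousAt_iff.1 hcont c hc
    filter_upwards [ball_mem_nhds t hδ] with t' ht'
    have e1 : ∫ s in t..t, G t s = 0 := intervalIntegral.integral_same
    have e2 : (t' - t) • G t t = ∫ s in t..t', G t t := by
      rw [intervalIntegral.integral_const]
    rw [e1, sub_zero, e2, ← intervalIntegral.integral_sub ((c1 t').intervalIntegrable _ _)
      intervalIntegrable_const, Real.norm_eq_abs]
    apply intervalIntegral.norm_integral_le_of_norm_le_const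
    intro s hs
    have hs2 : |s - t| ≤ |t' - t| := by
      have := uIoc_subset_uIcc hs
      rw [uIcc_comm] at this
      have h3 := Set.abs_sub_left_of_mem_uIcc (uIoc_subset_uIcc hs)
      exact h3
    have hd1 : dist (t', s) (t, t) < δ := by
      rw [Prod.dist_eq]
      apply max_lt
      · exact mem_ball.1 ht'
      · rw [Real.dist_eq]
        have := mem_ball.1 ht'
        rw [Real.dist_eq] at this
        linarith
    have := hδ2 hd1
    rw [dist_eq_norm] at this
    exact this.le
  have h3 : (fun t' => ∫ s in (0 : ℝ)..t', G t' s) =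
      fun t' => (∫ s in t..t', G t' s) + ∫ s in (0 : ℝ)..t, G t' s := by
    funext t'
    rw [add_comm]
    exact (intervalIntegral.integral_add_adjacent_intervals ((c1 t').intervalIntegrable _ _)
      ((c1 t').intervalIntegrable _ _)).symm
  rw [h3]
  exact h2.add h1

end Pool.Agent.E8helper80.FV
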