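import Pool.Agent.E8helper4.FV.Stm2
import Pool.Agent.E8helper80.FV.Leib
import Pool.Agent.E8helper80.FV.D4

/-!
FV2, piece K2: the derivative of `h_m`.
-/

set_option autoImplicit false

open Complex MeasureTheory Metric Set Filter Topology ComplexConjugate
open Pool.Agent.E8helper4.FV

namespace Pool.Agent.E8helper80.FV

theorem k2 : K2 := by
  intro hK φ r a hr hφ m t
  obtain ⟨hc, hA, -⟩ := hK m
  obtain ⟨hc', -⟩ := hK (m - 1)
  have hx := hxx hr hφ
  have hcx : Continuous (xx φ) := continuous_iff_continuousAt.2 fun s => (hx s).continuousAt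
  have hcd := cont_xd hr hφ
  have hcj : Continuous fun s => conj (xx φ s) := continuous_conj.comp hcx
  have harg : Continuous fun p : ℝ × ℝ =>
      (xx φ p.1 - xx φ p.2, (a : ℂ) * conj (xx φ p.2)) :=
    ((hcx.comp continuous_fst).sub (hcx.comp continuous_snd)).prodMk
      (continuous_const.mul (hcj.comp continuous_snd))
  have hG : Continuous (Function.uncurry fun t s : ℝ =>
      kp m (xx φ t - xx φ s) ((a : ℂ) * conj (xx φ s)) * xd φ s) :=
    (hc.comp harg).mul (hcd.comp continuous_snd)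
  have hG' : Continuous (Function.uncurry fun t s : ℝ =>
      xd φ t * (kp (m - 1) (xx φ t - xx φ s) ((a : ℂ) * conj (xx φ s)) * xd φ s)) :=
    (hcd.comp continuous_fst).mul ((hc'.comp harg).mul (hcd.comp continuous_snd))
  have hd : ∀ t s : ℝ, HasDerivAt (fun t : ℝ =>
      kp m (xx φ t - xx φ s) ((a : ℂ) * conj (xx φ s)) * xd φ s)
      (xd φ t * (kp (m - 1) (xx φ t - xx φ s) ((a : ℂ) * conj (xx φ s)) * xd φ s)) t := by
    intro t s
    have e1 : HasDerivAt (fun t : ℝ => xx φ t - xx φ s) (xd φ t) t := (hx t).sub_const _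
    have e2 := (hA (xx φ t - xx φ s) ((a : ℂ) * conj (xx φ s))).comp_of_eq t e1 rfl
    have e3 := e2.mul_const (xd φ s)
    refine e3.congr_deriv ?_
    ring
  have key := leib hG hG' hd t
  have e4 : kp m (xx φ t - xx φ t) ((a : ℂ) * conj (xx φ t)) * xd φ t +
      ∫ s in (0 : ℝ)..t, xd φ t * (kp (m - 1) (xx φ t - xx φ s) ((a : ℂ) * conj (xx φ s)) * xd φ s) =
      xd φ t * (kp m 0 ((a : ℂ) * conj (xx φ t)) + hh a φ (m - 1) t) := by
    rw [sub_self, intervalIntegral.integral_const_mul, hh]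
    ring
  rw [← e4]
  exact key

end Pool.Agent.E8helper80.FV
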